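import Pool.Agent.H477.O.DatumB2
import Pool.Agent.H477.O.Qfin
import Pool.Agent.H628.S.Prop
import Pool.Agent.H196.B.B1
import Pool.Agent.H862.B.B2

set_option autoImplicit false

/-!
# The Lindelöf hypothesis and the zeros of one derivative of the completed L-functions

Let `ξ(s) = N^(s/2) Λ(s)` be a completed standard L-function of `GL_m`, `L(s)` its finite part and
`C(y)` its analytic conductor at height `y`. Backlund's criterion says for the zeta function that the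
Lindelöf hypothesis holds if and only if for every `α > 0` there are `o(log T)` zeros with real part
`≥ 1/2 + α` and imaginary part in `[T, T + 1]`. We show, locally and uniformly in the L-function, that
the zeros of any ONE derivative `ξ^{(k)}` may be used instead:

* if at all heights within `B log C(y)` of `y` there are at most `κ log C(y)` zeros of `ξ^{(k)}` with
  real part `≥ 1/2 + α`, then `|L(1/2 + iy)| ≤ C(y)^ε`;
* if `|L(1/2 + iv)| ≤ C(y)^δ` for `|v - y| ≤ A`, then at height `y` there are at most `η log C(y)` zeros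
  of `ξ^{(k)}` with real part `≥ 1/2 + α`, for each `k`.

Proof of the first part: `ξ^{(k)}` has far to the right its expected size, so few zeros imply, by a
propagation of smallness for zero-free functions, that its size near the critical line is at most
`exp(ε log C)` times the expected one; an integration over vertical rays of length `O(log C)` (towards the
side on which the Gamma factor decays exponentially) recovers `ξ^{(k-1)}, …, ξ`.
-/

open Complex
open scoped ComplexConjugate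

namespace Pool.Agent.Results.MP_52e316_nt.BacklundForDerivatives

/-- The analytic data of the standard L-function of a cuspidal automorphic representation `π` of
`GL_m` over the rationals other than the trivial representation of `GL_1` (and of the products of such
L-functions): conductor `N`, archimedean parameters `μ j`, Satake parameters `β j p`, root number `w`,
completed L-function `Λ`. All these properties are known for all such `π` (Godement-Jacquet,
Jacquet-Shalika). -/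
structure StandardData {m : ℕ} (N : ℝ) (μ : Fin m → ℂ) (β : Fin m → ℕ → ℂ) (w : ℂ) (Λ : ℂ → ℂ) :
    Prop where
  /-- the conductor -/
  one_le : 1 ≤ N
  /-- the bound of Jacquet and Shalika at infinity -/
  re_le : ∀ j, (μ j).re ≤ 1 / 2
  /-- the bound of Jacquet and Shalika at the primes -/
  norm_le : ∀ j, ∀ p : ℕ, p.Prime → ‖β j p‖ ≤ (p : ℝ) ^ (1 / 2 : ℝ)
  /-- the root number -/
  norm_eq : ‖w‖ = 1
  /-- the completed L-function is entire -/
  entire : Differentiable ℂ Λ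
  /-- `Λ(s) = ∏_j Γ_ℝ(s - μ_j) ∏_p ∏_j (1 - β_j(p) p^(-s))⁻¹`, where the product converges absolutely
  because of `norm_le` -/
  euler : ∀ s : ℂ, 3 / 2 < s.re → Λ s = (∏ j, Gammaℝ (s - μ j)) *
    ∏' p : Nat.Primes, ∏ j, (1 - β j p * (p : ℂ) ^ (-s))⁻¹
  /-- `Λ(s, π) = w N^(1/2 - s) Λ(1 - s, π~)` with `Λ(s, π~) = conj Λ(conj s, π)` -/
  fe : ∀ s : ℂ, Λ s = w * (N : ℂ) ^ (1 / 2 - s) * conj (Λ (1 - conj s))
  /-- at most exponential growth in vertical strips (in fact `Λ` is bounded there) -/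
  growth : ∀ a b : ℝ, ∃ M, ∀ s : ℂ, a ≤ s.re → s.re ≤ b → ‖Λ s‖ ≤ Real.exp (M * (1 + |s.im|))

/-- `ξ(s) = N^(s/2) Λ(s)`, so that `ξ(s) = w conj (ξ(1 - conj s))`. -/
noncomputable def xi (N : ℝ) (Λ : ℂ → ℂ) (s : ℂ) : ℂ := (N : ℂ) ^ (s / 2) * Λ s

/-- the analytic conductor at height `y` -/
noncomputable def conductor {m : ℕ} (N : ℝ) (μ : Fin m → ℂ) (y : ℝ) : ℝ :=
  N * ∏ j, (1 + ‖(y : ℂ) * I - μ j‖)

/-- the finite part of the L-function -/
noncomputable def L {m : ℕ} (μ : Fin m → ℂ) (Λ : ℂ → ℂ) (s : ℂ) : ℂ :=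
  Λ s * ∏ j, (Gammaℝ (s - μ j))⁻¹

/-- the `k`-th derivative of `ξ` has at most `b` zeros (counted with multiplicity) with
`1/2 + α ≤ Re s ≤ 5/2 + k` and `|Im s - y| ≤ 1` -/
def Few (N : ℝ) (Λ : ℂ → ℂ) (k : ℕ) (α y b : ℝ) : Prop :=
  ∀ T : Finset ℂ, (∀ s ∈ T, iteratedDeriv k (xi N Λ) s = 0 ∧ 1 / 2 + α ≤ s.re ∧ s.re ≤ 5 / 2 + k ∧ |s.im - y| ≤ 1) →
    ∑ s ∈ T, (analyticOrderNatAt (iteratedDeriv k (xi N Λ)) s : ℝ) ≤ b

lemma datum {m : ℕ} {N : ℝ} {μ : Fin m → ℂ} {β : Fin m → ℕ → ℂ} {w : ℂ} {Λ : ℂ → ℂ}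
    (d : StandardData N μ β w Λ) : H353.F.DatumT (1 / 2) N μ β w Λ :=
  ⟨d.one_le, d.re_le, d.norm_le, d.norm_eq, d.entire, fun s hs => d.euler s (by linarith), d.fe, d.growth⟩

theorem result :
    -- (I) few zeros of one derivative near height `y` ⟹ the L-function is small
    (∀ (m k : ℕ) (R ε : ℝ), 1 ≤ m → 0 < ε → ∃ B κ α C₀ : ℝ, 0 < B ∧ 0 < κ ∧ 0 < α ∧ 1 < C₀ ∧
      ∀ (N : ℝ) (μ : Fin m → ℂ) (β : Fin m → ℕ → ℂ) (w : ℂ) (Λ : ℂ → ℂ), StandardData N μ β w Λ →
      (∀ j, -R ≤ (μ j).re) → ∀ y : ℝ, ((∀ j, (μ j).im ≤ y) ∨ ∀ j, y ≤ (μ j).im) → C₀ ≤ conductor N μ y →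
      (∀ v : ℝ, |v - y| ≤ B * Real.log (conductor N μ y) →
        Few N Λ k α v (κ * Real.log (conductor N μ y))) →
      ‖L μ Λ (1 / 2 + y * I)‖ ≤ conductor N μ y ^ ε) ∧
    -- (II) the L-function is small near height `y` ⟹ few zeros of each derivative
    (∀ (m k : ℕ) (α η : ℝ), 1 ≤ m → 0 < α → 0 < η → ∃ A δ C₀ : ℝ, 0 < A ∧ 0 < δ ∧ 1 < C₀ ∧
      ∀ (N : ℝ) (μ : Fin m → ℂ) (β : Fin m → ℕ → ℂ) (w : ℂ) (Λ : ℂ → ℂ), StandardData N μ β w Λ →
      ∀ y : ℝ, C₀ ≤ conductor N μ y →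
      (∀ v : ℝ, |v - y| ≤ A → ‖L μ Λ (1 / 2 + v * I)‖ ≤ conductor N μ y ^ δ) →
      Few N Λ k α y (η * Real.log (conductor N μ y))) ∧
    -- (III) families of L-functions with real archimedean parameters, bounded below
    (∀ (m : ℕ) (R : ℝ) (ι : Type) (N : ι → ℝ) (μ : ι → Fin m → ℂ) (β : ι → Fin m → ℕ → ℂ) (w : ι → ℂ)
      (Λ : ι → ℂ → ℂ), 1 ≤ m → (∀ i, StandardData (N i) (μ i) (β i) (w i) (Λ i)) →
      (∀ i j, -R ≤ (μ i j).re) → (∀ i j, (μ i j).im = 0) →
      List.TFAE [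
        -- the Lindelöf hypothesis for the family
        ∀ e : ℝ, 0 < e → ∃ B : ℝ, ∀ i y, ‖L (μ i) (Λ i) (1 / 2 + (y : ℝ) * I)‖ ≤
          B * ((1 + |y|) * (N i * ∏ j, (1 + ‖μ i j‖))) ^ e,
        -- few zeros of each derivative
        ∀ (k : ℕ) (α η : ℝ), 0 < α → 0 < η → ∃ C₀ : ℝ, ∀ i, ∀ y : ℝ, C₀ ≤ conductor (N i) (μ i) y →
          Few (N i) (Λ i) k α y (η * Real.log (conductor (N i) (μ i) y)),
        -- few zeros of one derivative
        ∃ k : ℕ, ∀ α η : ℝ, 0 < α → 0 < η → ∃ C₀ : ℝ, ∀ i, ∀ y : ℝ, C₀ ≤ conductor (N i) (μ i) y →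
          Few (N i) (Λ i) k α y (η * Real.log (conductor (N i) (μ i) y))]) := by
  have B1 : Pool.Agent.H477.O.S_B1 :=
    Pool.Agent.H196.B.B1_proof Pool.Agent.H372.P.PFar.t_pfar Pool.Agent.H271.P.pcr_proof Pool.Agent.H628.S.S_PROP_proof
  have B2 : Pool.Agent.H477.O.S_B2 := Pool.Agent.H862.B.b2 Pool.Agent.H372.P.PFar.t_pfar
  have M1 : Pool.Agent.H477.O.B.S_BM1 := Pool.Agent.H477.O.B.bm1 B1 (Pool.Agent.H981.P.pint Pool.Agent.H271.P.pcr_proof)
    (Pool.Agent.H477.O.Line2.pline2 Pool.Agent.H477.O.R.strip Pool.Agent.H477.O.PCMP_proof)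
  have PF : Pool.Agent.H477.O.S_PFAR := Pool.Agent.H372.P.PFar.t_pfar
  refine ⟨fun m k R ε hm hε => ?_, fun m k α η hm hα hη => ?_, fun m R ι N μ β w Λ hm hd hre him => ?_⟩
  · obtain ⟨B, κ, α, C₀, hB, hκ, hα, hC₀, H⟩ := Pool.Agent.H477.O.B.gl1 M1 PF m hm k (R₀ := |R|) (abs_nonneg R) hε
    refine ⟨B, κ, α, C₀, hB, hκ, hα, hC₀, fun N μ β w Λ d hR y hy hC hZ => ?_⟩
    have hc0 : 0 < conductor N μ y := by linarith
    rw [Real.rpow_def_of_pos hc0, mul_comm _ ε]
    refine H N μ β w Λ (datum d) (fun j => by linarith [hR j, le_abs_self R]) y hy hC fun v hv T hT => hZ v hv T fun s hs => ?_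
    obtain ⟨⟨t1, t2, t3⟩, t4⟩ := hT s hs
    exact ⟨t1, t2, t3, t4⟩
  · obtain ⟨A, δ, C₀, hA, hδ, hC₀, H⟩ := Pool.Agent.H477.O.B.gl2 B2 m hm k (α := min α (1 / 4)) (lt_min hα (by norm_num)) (min_le_right _ _) hη
    refine ⟨A, δ, C₀, hA, hδ, hC₀, fun N μ β w Λ d y hC hL T hT => ?_⟩
    have hc0 : 0 < conductor N μ y := by linarith
    refine H N μ β w Λ (datum d) y hC (fun v hv => ?_) T fun s hs => ?_
    · have := hL v hv
      rwa [Real.rpow_def_of_pos hc0, mul_comm _ δ] at this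
    · obtain ⟨t1, t2, t3, t4⟩ := hT s hs
      exact ⟨t1, by linarith [min_le_left α (1 / 4)], t3, t4⟩
  · have hD := fun i => datum (hd i)
    have hiff := Pool.Agent.H487.GL.lindelof_iff hm (fun i => (hd i).one_le) (fun i => Finset.sum_eq_zero fun j _ => him i j)
      fun i y => ‖L (μ i) (Λ i) (1 / 2 + (y : ℝ) * I)‖
    tfae_have 1 → 2 := by
      intro G k α η hα hη
      obtain ⟨C₀, _, H⟩ := Pool.Agent.H477.O.B.fam2 B2 hm k hD (hiff.1 G) hα hη
      exact ⟨C₀, fun i y h1 T hT => H i y h1 T hT⟩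
    tfae_have 2 → 3 := fun h => ⟨0, h 0⟩
    tfae_have 3 → 1 := by
      rintro ⟨k, Z⟩
      refine hiff.2 fun e he => ?_
      exact Pool.Agent.H477.O.B.fam1 M1 PF hm k (R₀ := |R|) (abs_nonneg R) hD (fun i j => by linarith [hre i j, le_abs_self R]) him
        (fun α η hα hη => by
          obtain ⟨C₀, H⟩ := Z α η hα hη
          exact ⟨C₀, fun i y h1 T hT => H i y h1 T hT⟩) he
    tfae_finish

end Pool.Agent.Results.MP_52e316_nt.BacklundForDerivatives
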