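import Pool.Agent.H487.GL.Family

/-!
# The Lindelöf hypothesis and the zeros of the de Bruijn-Newman heat flow

Let `ξ(s) = N^(s/2) Λ(s)` be a completed L-function of degree `m`, `C(y) = N ∏_j (1 + |i y - μ_j|)` its
analytic conductor at height `y`, and `H_t = e^{t D²} ξ`, `D = d/ds`, the heat evolution of de Bruijn and
Newman.  We show that the size of the L-function `L` on the critical line and the number of zeros of
`H_t` which are not on the critical line determine each other, where `t` has the size `1 / log C(y)`: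

* (few zeros off the line ⟹ small L-function)  if at most `δ log C(y)` of the zeros of `H_t` with
  `|Im s - y| ≤ A` are off the critical line, then `|L(1/2 + i y)| ≤ C(y)^(κ/4 + η)`, `κ = t log C(y)`
  (for `κ < 1` a subconvex bound);
* (small L-function ⟹ few zeros off the line)  if `|L(1/2 + i v)| ≤ C(y)^δ` for `|v - y| ≤ A`, then for
  all `t` with `t log C(y) ≥ η` at most `η log C(y)` of the zeros of `H_t` with `|Im s - y| ≤ 1` (there
  are about `(1/π) log C(y)` of them) are not simple zeros on the critical line.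

Here `η > 0` is arbitrary and `A, δ` depend only on `m, θ, η`.  Hence, for every family of L-functions,
the Lindelöf hypothesis is equivalent to a statement about the zeros of the functions `H_t` with
`t = κ / log C(y)`, for every fixed `κ > 0`: almost all of them are simple and on the critical line, in
every interval of length one.  (The Riemann hypothesis for `L` says that all zeros of `H_t` are on the
line, for all `t > 0`.)

Proof.  First part: a harmonic measure argument (Poisson-Jensen in a disc to the right of the critical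
line) bounds `H_t` near the line in terms of its known size on the far right and the number of zeros, and
`ξ` is recovered from `H_t` as a Gaussian average over vertical lines.  Second part:
`H_t(s) = R(s) + ε conj R(1 - conj s)` with `R` the average of `ξ` over the right half line; the Lindelöf
bound shows that `R` has on the line its expected size up to `C(y)^δ`; hence `log |R|` is on the
logarithmic scale close to a linear function near the line except for few zeros, the argument of `R`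
increases at the expected rate, and one obtains `(1/π - o(1)) log C(y)` zeros of `H_t` on the line; by
Jensen's formula there are few others.
-/

set_option autoImplicit false

namespace Pool.Agent.Results.MP_52e316_nt.HeatFlowCriterion

open Complex
open scoped ComplexConjugate

/-- The analytic data of the standard L-function of a cuspidal automorphic representation `π` of
`GL_m` over the rationals other than the trivial representation of `GL_1` (and of the products of such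
L-functions): conductor `N`, archimedean parameters `μ j`, Satake parameters `α j p` with
`|α j p| ≤ p ^ θ`, root number `ε`, completed L-function `Λ`.  For `θ = 1/2` all these properties are
known for all such `π` (Godement-Jacquet, Jacquet-Shalika). -/
structure StandardData {m : ℕ} (θ N : ℝ) (μ : Fin m → ℂ) (α : Fin m → ℕ → ℂ) (ε : ℂ) (Λ : ℂ → ℂ) :
    Prop where
  /-- the conductor -/
  one_le : 1 ≤ N
  /-- the bound of Jacquet and Shalika at infinity -/
  re_le : ∀ j, (μ j).re ≤ 1 / 2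
  /-- the bound for the Satake parameters at the primes -/
  norm_le : ∀ j, ∀ p : ℕ, p.Prime → ‖α j p‖ ≤ (p : ℝ) ^ θ
  /-- the root number -/
  norm_eq : ‖ε‖ = 1
  /-- the completed L-function is entire -/
  entire : Differentiable ℂ Λ
  /-- `Λ(s) = ∏_j Γ_ℝ(s - μ_j) ∏_p ∏_j (1 - α_j(p) p^(-s))⁻¹`, where the product converges
  absolutely because of `norm_le` -/
  euler : ∀ s : ℂ, 1 + θ < s.re → Λ s = (∏ j, Gammaℝ (s - μ j)) *
    ∏' p : Nat.Primes, ∏ j, (1 - α j p * (p : ℂ) ^ (-s))⁻¹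
  /-- `Λ(s, π) = ε N^(1/2 - s) Λ(1 - s, π~)` with `Λ(s, π~) = conj Λ(conj s, π)` -/
  fe : ∀ s : ℂ, Λ s = ε * (N : ℂ) ^ (1 / 2 - s) * conj (Λ (1 - conj s))
  /-- at most exponential growth in vertical strips (in fact `Λ` is bounded there) -/
  growth : ∀ a b : ℝ, ∃ M, ∀ s : ℂ, a ≤ s.re → s.re ≤ b → ‖Λ s‖ ≤ Real.exp (M * (1 + |s.im|))

/-- the L-function `L(s) = Λ(s) / ∏_j Γ_ℝ(s - μ_j)` (the entire function `1 / Γ_ℝ` vanishes at the poles
of `Γ_ℝ`, in agreement with Mathlib's conventions `Γ_ℝ = 0` there and `0⁻¹ = 0`) -/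
noncomputable def L {m : ℕ} (μ : Fin m → ℂ) (Λ : ℂ → ℂ) (s : ℂ) : ℂ :=
  Λ s * ∏ j, (Gammaℝ (s - μ j))⁻¹

/-- `ξ(s) = N^(s/2) Λ(s)`, so that `ξ(s) = ε conj (ξ(1 - conj s))`. -/
noncomputable def xi (N : ℝ) (Λ : ℂ → ℂ) (s : ℂ) : ℂ := (N : ℂ) ^ (s / 2) * Λ s

/-- the analytic conductor at height `y` -/
noncomputable def conductor {m : ℕ} (N : ℝ) (μ : Fin m → ℂ) (y : ℝ) : ℝ :=
  N * ∏ j, (1 + ‖(y : ℂ) * I - μ j‖)

/-- `H_t = e^{t D²} F = ∑ t^k F^(2k) / k!` -/
noncomputable def H (t : ℝ) (F : ℂ → ℂ) (s : ℂ) : ℂ :=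
  ∑' k : ℕ, ((t ^ k / (k.factorial : ℝ) : ℝ) : ℂ) * iteratedDeriv (2 * k) F s

/-- the zeros of `F` with the property `P` are at most `B` in number, counted with multiplicity -/
def AtMost (F : ℂ → ℂ) (P : ℂ → Prop) (B : ℝ) : Prop :=
  ∀ T : Finset ℂ, (∀ s ∈ T, F s = 0 ∧ P s) → ∑ s ∈ T, (analyticOrderNatAt F s : ℝ) ≤ B

lemma datum {m : ℕ} {θ N : ℝ} {μ : Fin m → ℂ} {α : Fin m → ℕ → ℂ} {ε : ℂ} {Λ : ℂ → ℂ}
    (d : StandardData θ N μ α ε Λ) : H353.F.DatumT θ N μ α ε Λ :=
  ⟨d.one_le, d.re_le, d.norm_le, d.norm_eq, d.entire, d.euler, d.fe, d.growth⟩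

/-- only the zeros count -/
lemma AtMost.all {F : ℂ → ℂ} (hF : Differentiable ℂ F) {P : ℂ → Prop} {B : ℝ} (h : AtMost F P B) (T : Finset ℂ)
    (hT : ∀ s ∈ T, P s) : ∑ s ∈ T, (analyticOrderNatAt F s : ℝ) ≤ B := by
  classical
  have h1 : ∑ s ∈ T, (analyticOrderNatAt F s : ℝ) = ∑ s ∈ T.filter (fun s => F s = 0), (analyticOrderNatAt F s : ℝ) := by
    rw [Finset.sum_filter]
    refine Finset.sum_congr rfl fun s _ => ?_
    split_ifs with h
    · rfl
    · have : analyticOrderNatAt F s = 0 := H487.GL.mult_of_ne hF h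
      rw [this, Nat.cast_zero]
  rw [h1]
  exact h _ fun s hs => by
    rw [Finset.mem_filter] at hs
    exact ⟨hs.2, hT s hs.1⟩

theorem result :
    -- (I) the local comparison
    (∀ (m : ℕ) (θ η : ℝ), 1 ≤ m → 0 ≤ θ → θ ≤ 1 / 2 → 0 < η →
      ∃ A δ C₀ t₁ : ℝ, 0 < A ∧ 0 < δ ∧ 1 < C₀ ∧ 0 < t₁ ∧
        ∀ (N : ℝ) (μ : Fin m → ℂ) (α : Fin m → ℕ → ℂ) (ε : ℂ) (Λ : ℂ → ℂ), StandardData θ N μ α ε Λ →
        ∀ y t : ℝ, C₀ ≤ conductor N μ y → η ≤ t * Real.log (conductor N μ y) →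
        -- few zeros of `H_t` off the line ⟹ `L` is small
        (AtMost (H t (xi N Λ)) (fun s => s.re ≠ 1 / 2 ∧ |s.im - y| ≤ A) (δ * Real.log (conductor N μ y)) →
          ‖L μ Λ (1 / 2 + y * I)‖ ≤ conductor N μ y ^ (t * Real.log (conductor N μ y) / 4 + η)) ∧
        -- `L` is small ⟹ few zeros of `H_t` are not simple and on the line
        (t ≤ t₁ → (∀ v : ℝ, |v - y| ≤ A → ‖L μ Λ (1 / 2 + v * I)‖ ≤ conductor N μ y ^ δ) →
          AtMost (H t (xi N Λ)) (fun s => ¬ (s.re = 1 / 2 ∧ deriv (H t (xi N Λ)) s ≠ 0) ∧ |s.im - y| ≤ 1)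
            (η * Real.log (conductor N μ y)))) ∧
    -- (II) families of L-functions
    (∀ (m : ℕ) (θ : ℝ) (ι : Type) (N : ι → ℝ) (μ : ι → Fin m → ℂ) (α : ι → Fin m → ℕ → ℂ) (ε : ι → ℂ) (Λ : ι → ℂ → ℂ),
      1 ≤ m → 0 ≤ θ → θ ≤ 1 / 2 → (∀ i, StandardData θ (N i) (μ i) (α i) (ε i) (Λ i)) →
      -- the following are equivalent:
      List.TFAE [
        -- the Lindelöf hypothesis for the family, in terms of the conductor at height `y`
        ∀ e : ℝ, 0 < e → ∃ B : ℝ, ∀ i y, ‖L (μ i) (Λ i) (1 / 2 + (y : ℝ) * I)‖ ≤ B * conductor (N i) (μ i) y ^ e,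
        -- almost all zeros of `H_t` are simple and on the line, for `η / log C ≤ t ≤ 1 / C₀`
        ∀ η : ℝ, 0 < η → ∃ C₀ : ℝ, 1 < C₀ ∧ ∀ i, ∀ y t : ℝ, C₀ ≤ conductor (N i) (μ i) y → C₀ * t ≤ 1 →
          η ≤ t * Real.log (conductor (N i) (μ i) y) →
          AtMost (H t (xi (N i) (Λ i)))
            (fun s => ¬ (s.re = 1 / 2 ∧ deriv (H t (xi (N i) (Λ i))) s ≠ 0) ∧ |s.im - y| ≤ 1)
            (η * Real.log (conductor (N i) (μ i) y)),
        -- almost all zeros of `H_t` are on the line, for `t = κ / log C`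
        ∀ κ A η : ℝ, 0 < κ → 0 < A → 0 < η → ∃ C₀ : ℝ, ∀ i, ∀ y : ℝ, C₀ ≤ conductor (N i) (μ i) y →
          AtMost (H (κ / Real.log (conductor (N i) (μ i) y)) (xi (N i) (Λ i)))
            (fun s => s.re ≠ 1 / 2 ∧ |s.im - y| ≤ A) (η * Real.log (conductor (N i) (μ i) y))] ∧
      -- for normalised data (central character trivial on the positive reals) the first statement is
      -- the Lindelöf hypothesis in terms of `(1 + |y|) C_π`
      ((∀ i, ∑ j, (μ i j).im = 0) →
        ((∀ e : ℝ, 0 < e → ∃ B : ℝ, ∀ i y, ‖L (μ i) (Λ i) (1 / 2 + (y : ℝ) * I)‖ ≤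
            B * ((1 + |y|) * (N i * ∏ j, (1 + ‖μ i j‖))) ^ e) ↔
          ∀ e : ℝ, 0 < e → ∃ B : ℝ, ∀ i y, ‖L (μ i) (Λ i) (1 / 2 + (y : ℝ) * I)‖ ≤
            B * conductor (N i) (μ i) y ^ e))) := by
  refine ⟨fun m θ η hm hθ0 hθ1 hη => ?_, fun m θ ι N μ α ε Λ hm hθ0 hθ1 hd => ⟨?_, fun hμ => ?_⟩⟩
  · obtain ⟨A₁, δ₁, C₁, hA₁, hδ₁, hC₁, K1⟩ := H487.GL.datum_size m hm hθ0 hθ1 hη
    obtain ⟨A₂, δ₂, C₂, t₁, hA₂, hδ₂, hC₂, ht₁, K2⟩ := H487.GL.datum_few m hm hθ0 hθ1 hη
    refine ⟨max A₁ A₂, min δ₁ δ₂, max C₁ C₂, t₁, lt_max_of_lt_left hA₁, lt_min hδ₁ hδ₂, lt_max_of_lt_left hC₁, ht₁,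
      fun N μ α ε Λ d y t hC ht => ⟨fun h => ?_, fun htt h => ?_⟩⟩
    · have C0 := H487.NB.datum_cl hm hθ0 hθ1 (datum d)
      have hc1 : C₁ ≤ conductor N μ y := (le_max_left _ _).trans hC
      have hc0 : 0 < conductor N μ y := by linarith
      have hL0 : 0 < Real.log (conductor N μ y) := Real.log_pos (by linarith)
      have hFd : Differentiable ℂ (H t (xi N Λ)) := H487.NB.flow_differentiable C0.diff C0.type0 t
      rw [Real.rpow_def_of_pos hc0, mul_comm (Real.log (conductor N μ y))]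
      refine K1 N μ α ε Λ (datum d) y t hc1 ht fun T hT => ?_
      refine (h.all hFd T fun s hs => ?_).trans (mul_le_mul_of_nonneg_right (min_le_left _ _) hL0.le)
      obtain ⟨h1, h2⟩ := hT s hs
      exact ⟨by linarith, h2.trans (le_max_left _ _)⟩
    · have hc2 : C₂ ≤ conductor N μ y := (le_max_right _ _).trans hC
      have hc0 : 0 < conductor N μ y := by linarith
      have hL0 : 0 < Real.log (conductor N μ y) := Real.log_pos (by linarith)
      intro T hT
      refine K2 N μ α ε Λ (datum d) y t hc2 htt ht (fun v hv => ?_) T fun s hs => ⟨(hT s hs).2.2, (hT s hs).2.1⟩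
      refine (h v (hv.trans (le_max_right _ _))).trans ?_
      rw [Real.rpow_def_of_pos hc0, mul_comm (Real.log (conductor N μ y))]
      exact Real.exp_le_exp.mpr (mul_le_mul_of_nonneg_right (min_le_right _ _) hL0.le)
  · have hD := fun i => datum (hd i)
    have e12 : (∀ e : ℝ, 0 < e → ∃ B : ℝ, ∀ i y, ‖L (μ i) (Λ i) (1 / 2 + (y : ℝ) * I)‖ ≤ B * conductor (N i) (μ i) y ^ e) →
        ∀ η : ℝ, 0 < η → ∃ C₀ : ℝ, 1 < C₀ ∧ ∀ i, ∀ y t : ℝ, C₀ ≤ conductor (N i) (μ i) y → C₀ * t ≤ 1 →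
          η ≤ t * Real.log (conductor (N i) (μ i) y) →
          ∀ T : Finset ℂ, (∀ s ∈ T, |s.im - y| ≤ 1 ∧ ¬ (s.re = 1 / 2 ∧ deriv (H t (xi (N i) (Λ i))) s ≠ 0)) →
            ∑ s ∈ T, (analyticOrderNatAt (H t (xi (N i) (Λ i))) s : ℝ) ≤ η * Real.log (conductor (N i) (μ i) y) :=
      fun G η hη => H487.GL.fam_dir hm hθ0 hθ1 hD G hη
    have hFd : ∀ i (t : ℝ), Differentiable ℂ (H t (xi (N i) (Λ i))) := fun i t => by
      have C0 := H487.NB.datum_cl hm hθ0 hθ1 (hD i)
      exact H487.NB.flow_differentiable C0.diff C0.type0 t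
    tfae_have 1 → 2 := by
      intro G η hη
      obtain ⟨C₀, hC₀, K⟩ := e12 G η hη
      exact ⟨C₀, hC₀, fun i y t h1 h2 h3 T hT => K i y t h1 h2 h3 T fun s hs => ⟨(hT s hs).2.2, (hT s hs).2.1⟩⟩
    tfae_have 2 → 3 := by
      intro Z κ A η hκ _ hη
      obtain ⟨C₀, _, K⟩ := H487.GL.fam_cover (N := N) (μ := μ) (α := α) (ε := ε) (Λ := Λ) (θ := θ) hm hD (fun η hη => by
        obtain ⟨C₀, hC₀, K⟩ := Z η hη
        exact ⟨C₀, hC₀, fun i y t h1 h2 h3 T hT => (K i y t h1 h2 h3).all (hFd i t) T fun s hs => ⟨(hT s hs).2, (hT s hs).1⟩⟩)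
        (κ := κ) (A := A) (η := η) hκ hη
      exact ⟨C₀, fun i y h1 T hT => K i y h1 T fun s hs => ⟨(hT s hs).2.2, (hT s hs).2.1⟩⟩
    tfae_have 3 → 1 := by
      intro Z e he
      exact H487.GL.fam_conv (N := N) (μ := μ) (α := α) (ε := ε) (Λ := Λ) (θ := θ) hm hθ0 hθ1 hD (fun κ A η hκ hA hη => by
        obtain ⟨C₀, K⟩ := Z κ A η hκ hA hη
        exact ⟨C₀, fun i y h1 T hT => (K i y h1).all (hFd i _) T fun s hs => ⟨(hT s hs).2, (hT s hs).1⟩⟩) he
    tfae_finish
  · exact H487.GL.lindelof_iff hm (fun i => (hd i).one_le) hμ fun i y => ‖L (μ i) (Λ i) (1 / 2 + (y : ℝ) * I)‖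

end Pool.Agent.Results.MP_52e316_nt.HeatFlowCriterion
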