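import Pool.Agent.H480.U7
import Pool.Graph.R_seed8.Results.MP_52e316_nt.PersistentLargeValues

/-!
# The Grand Lindelöf Hypothesis is a local low-rank property of the coefficients

Let `π` run through a family of cuspidal automorphic representations of `GL_m(𝔸_ℚ)`, `m ≥ 1`, for example all
of them (the trivial representation of `GL_1` excepted), `C_π` the analytic conductor. Let `D_k(x, π)` be the
summatory function of the Dirichlet coefficients of `L(s, π)^k`, and fix `A, A' > 1`. We prove that the
following are equivalent: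

1. the Grand Lindelöf Hypothesis for the family: `|L(1/2 + it, π)| ≤ B_ε ((1 + |t|) C_π)^ε`;
2. for all `k` and `η > 0` the kernels `(x, y) ↦ D_k(X x y, π)` on `[1, A] × [1, A']` are of size
   `O(C_π^η X^(1/2 + η))` in the mean, for all `X ≥ 1` and all `π` of the family;
3. for all `η > 0` there are arbitrarily large `k` and, for each of them, an `r` such that for all `X ≥ 1` and all
   `π` of the family the kernel `D_k(X x y, π)` is in the mean within `O(C_π^η X^(1/2 + η))` of SOME sum of `r`
   products `u_i(x) v_i(y)`.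

In (3) the functions `u_i`, `v_i` are arbitrary integrable functions; they may depend on `π` and on `X` in any way,
and there is no condition which relates the approximations at different scales `X`. So a qualitative local
property (bounded approximate rank of a kernel on one small rectangle, at each scale separately) decides the size
of all the L-functions. The implication from (3) to (1) is a rigidity theorem of Hadamard-Kronecker type:
linear recurrences of length `r` which hold approximately in windows, each window with its own coefficients,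
are close to one recurrence which holds at all scales. (Compare the Pade approximants of consecutive windows on
circles that avoid their poles; the recurrences have a limit by compactness, with uniform error terms.) The
Laplace transform of the latter continues `P(e^(hs)) L(s, π)^k / s`, `P ≠ 0` a polynomial of degree `≤ r`, with a
uniform bound, to `Re s > 1/2 + 2η`, and `P(e^(hs))` is bounded from below on one of finitely many vertical
lines. Then we let `k → ∞`.

The hypotheses on `L(s, π)` are classical facts: functional equation, `Re μ_j < 1/2`, `|α_j(p)| ≤ p^(1/2)`, finite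
order and Molteni's bound in `Re s ≥ 1 + ε`. For primitive Dirichlet characters all of them are proved.
-/

set_option autoImplicit false

open Filter Topology MeasureTheory Set
open scoped ArithmeticFunction.zeta

namespace Pool.Agent.Results.MP_52e316_nt.LocalApproximateRank

/-- The data of a standard L-function of `GL(m)`: the conductor `N`, the archimedean parameters `mu j` (the
factor at infinity is `∏ j, Γ_ℝ (s - mu j)`), the Satake parameters `al j p` and the L-function `f`
(continued to the complex plane). -/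
structure Datum (m : ℕ) where
  N : ℕ
  mu : Fin m → ℂ
  al : Fin m → ℕ → ℂ
  f : ℂ → ℂ

/-- The analytic conductor `C = N ∏ j, (1 + |mu j|)`. -/
noncomputable def Datum.C {m : ℕ} (D : Datum m) : ℝ := D.N * ∏ j, (1 + ‖D.mu j‖)

/-- The classical properties: `N ≥ 1`, `Re (mu j) < 1/2`, `|al j p| ≤ p^(1/2)`, `f` is entire, of finite order in
the strip `-1/4 ≤ Re s ≤ 5/4`, satisfies the functional equation `Λ(s) = root N^(1/2-s) conj (Λ(1 - conj s))`,
`Λ(s) = f(s) ∏ j, Γ_ℝ (s - mu j)`, with `|root| = 1` (divided by the gamma factors of both sides), and is given by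
the Euler product to the right of `Re s = 3/2`. -/
structure Datum.Ok {m : ℕ} (D : Datum m) : Prop where
  N_pos : 0 < D.N
  mu_re : ∀ j, (D.mu j).re < 1 / 2
  satake : ∀ j, ∀ p : ℕ, p.Prime → ‖D.al j p‖ ≤ (p : ℝ) ^ (1 / 2 : ℝ)
  entire : Differentiable ℂ D.f
  order : ∃ A : ℝ, ∀ s : ℂ, -1 / 4 ≤ s.re → s.re ≤ 5 / 4 →
    ‖D.f s‖ ≤ Real.exp (A * (1 + |s.im|) ^ A)
  fe : ∃ root : ℂ, ‖root‖ = 1 ∧ ∀ s : ℂ,
    D.f s * ∏ j, (Complex.Gammaℝ (1 - s - (starRingEnd ℂ) (D.mu j)))⁻¹ =
      root * (D.N : ℂ) ^ (1 / 2 - s) * (starRingEnd ℂ) (D.f (1 - (starRingEnd ℂ) s)) *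
        ∏ j, (Complex.Gammaℝ (s - D.mu j))⁻¹
  euler : ∀ s : ℂ, 3 / 2 < s.re → D.f s = ∏' p : Nat.Primes, ∏ j, (1 - D.al j p * (p : ℂ) ^ (-s))⁻¹

/-- Molteni's bound to the right of the critical strip, uniform in the family. -/
def Molteni {ι : Type} {m : ℕ} (D : ι → Datum m) : Prop := ∀ ε : ℝ, 0 < ε → ∃ B : ℝ, ∀ (i : ι) (s : ℂ),
  1 + ε ≤ s.re → ‖(D i).f s‖ ≤ B * (D i).C ^ ε

/-- the completely multiplicative function with the values `β p` at the primes `p` -/
noncomputable def completelyMultiplicative (β : ℕ → ℂ) : ArithmeticFunction ℂ :=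
  ⟨fun n => if n = 0 then 0 else n.factorization.prod fun p k => β p ^ k, by simp⟩

/-- the coefficients of the Dirichlet series of `L(s, π)^k`: the `k`-th Dirichlet convolution power of the
Dirichlet convolution of the completely multiplicative functions with the values `al j p`, `j = 1, …, m` -/
noncomputable def Datum.coeff {m : ℕ} (D : Datum m) (k : ℕ) : ArithmeticFunction ℂ :=
  (∏ j, completelyMultiplicative (D.al j)) ^ k

/-- the summatory function `D_k(x, π)` of the coefficients of `L(s, π)^k` -/
noncomputable def Datum.S {m : ℕ} (D : Datum m) (k : ℕ) (x : ℝ) : ℂ := ∑ n ∈ Finset.Icc 1 ⌊x⌋₊, D.coeff k n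

/-- on the rectangle `[1, A] × [1, A']` the kernel `S(X x y)` is in the mean within `ε` of a sum of `r` products
`u_i(x) v_i(y)` of integrable functions of one variable -/
def WithinRank (S : ℝ → ℂ) (A A' : ℝ) (r : ℕ) (ε X : ℝ) : Prop :=
  ∃ u v : Fin r → ℝ → ℂ, (∀ i, IntegrableOn (u i) (Icc 1 A)) ∧ (∀ i, IntegrableOn (v i) (Icc 1 A')) ∧
    ∫ z in Icc 1 A ×ˢ Icc 1 A', ‖S (X * z.1 * z.2) - ∑ i, u i z.1 * v i z.2‖ ≤ ε

/-- the Grand Lindelöf Hypothesis for the family -/
def GrandLindelof {ι : Type} {m : ℕ} (D : ι → Datum m) : Prop := ∀ ε : ℝ, 0 < ε → ∃ B : ℝ, ∀ (i : ι) (t : ℝ),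
  ‖(D i).f (1 / 2 + t * Complex.I)‖ ≤ B * ((1 + |t|) * (D i).C) ^ ε

open Classical in
/-- the datum of a primitive Dirichlet character -/
noncomputable def dirichlet {q : ℕ} [NeZero q] (χ : DirichletCharacter ℂ q) : Datum 1 where
  N := q
  mu := fun _ => if χ.Even then 0 else -1
  al := fun _ p => χ (p : ZMod q)
  f := DirichletCharacter.LFunction χ

section proofs

open Pool.Agent.H480.K H855R2.SF H370.DL H429.GP

theorem mu_eq {q : ℕ} [NeZero q] (χ : DirichletCharacter ℂ q) : (dirichlet χ).mu = fun _ => -aa χ := by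
  funext j
  unfold dirichlet aa
  simp only
  split_ifs <;> simp

theorem dir_ok {q : ℕ} [NeZero q] {χ : DirichletCharacter ℂ q} (hq : 1 < q) (hχ : χ.IsPrimitive) :
    (dirichlet χ).Ok where
  N_pos := by show 0 < q; omega
  mu_re := by
    intro j
    rw [mu_eq]
    have := aa_re_nonneg (χ := χ)
    simp only [Complex.neg_re]
    linarith
  satake := by
    intro j p hp
    have h1 : (1:ℝ) ≤ p := by exact_mod_cast hp.one_lt.le
    exact (χ.norm_le_one _).trans (Real.one_le_rpow h1 (by norm_num))
  entire := DirichletCharacter.differentiable_LFunction (ne_one_of_prim hq hχ)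
  order := order_dir hq hχ
  fe := by
    refine ⟨DirichletCharacter.rootNumber χ, norm_rootNumber hχ, fun s => ?_⟩
    rw [mu_eq]
    exact fe_dir hq hχ s
  euler := by
    intro s hs
    have h1 : 1 < s.re := by linarith
    show DirichletCharacter.LFunction χ s = _
    rw [DirichletCharacter.LFunction_eq_LSeries χ h1, ← DirichletCharacter.LSeries_eulerProduct_tprod χ h1]
    simp [dirichlet]

theorem dir_molteni {ι : Type} (q : ι → ℕ) [∀ i, NeZero (q i)] (χ : (i : ι) → DirichletCharacter ℂ (q i)) :
    Molteni fun i => dirichlet (χ i) := by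
  intro ε hε
  refine ⟨∑' n : ℕ, 1 / (n : ℝ) ^ (1 + ε), fun i s hs => ?_⟩
  refine (right_dir hε hs).trans ?_
  refine le_mul_of_one_le_right (tsum_nonneg fun n => by positivity) (Real.one_le_rpow ?_ hε.le)
  have h1 := cond_one_le (N := q i) (Nat.pos_of_ne_zero (NeZero.ne _)) (dirichlet (χ i)).mu 0
  simpa [Datum.C, dirichlet] using h1

theorem cfam {ι : Type} {m : ℕ} {D : ι → Datum m} (hm : 1 ≤ m) (hD : ∀ i, (D i).Ok) (hM : Molteni D) :
    CFam (m : ℝ) (fun i => (D i).f) (fun i => (D i).C) (fun i k => fun n => (D i).coeff k n) where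
  m0 := by positivity
  one := by
    intro i
    have := cond_one_le (hD i).N_pos (D i).mu 0
    unfold Datum.C
    simpa using this
  fam := PersistentLargeValues.afam_gl hm (D := fun i => ⟨(D i).N, (D i).mu, (D i).f⟩)
    (fun i => ⟨(hD i).N_pos, (hD i).mu_re, (hD i).entire, (hD i).order, (hD i).fe⟩) hM
  coef := by
    intro k
    obtain ⟨b, hb, h⟩ := cf_bd (m := m) (θ := 1 / 2) (by norm_num) k
    exact ⟨b, hb, fun i => h (D i).al (hD i).satake⟩
  ser := by
    intro k
    refine ⟨2, fun i s hs => ?_⟩
    have h1 := cf_series (D i).al (hD i).satake k (s := s) (by linarith)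
    rw [← (hD i).euler s (by linarith)] at h1
    exact h1.LSeries_eq

end proofs

theorem result :
    -- the Grand Lindelöf Hypothesis for families of standard L-functions of `GL(m)`
    (∀ (ι : Type) (m : ℕ) (D : ι → Datum m) (A A' : ℝ), 1 ≤ m → 1 < A → 1 < A' → (∀ i, (D i).Ok) → Molteni D →
      (∀ (i : ι) (k : ℕ) (s : ℂ), 3 / 2 < s.re → LSeriesHasSum (fun n => (D i).coeff k n) s ((D i).f s ^ k)) ∧
      List.TFAE
        [GrandLindelof D,
         ∀ k : ℕ, ∀ η : ℝ, 0 < η → ∃ K : ℝ, ∀ (i : ι) (X : ℝ), 1 ≤ X →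
          ∫ z in Icc 1 A ×ˢ Icc 1 A', ‖(D i).S k (X * z.1 * z.2)‖ ≤ K * (D i).C ^ η * X ^ (1 / 2 + η),
         ∀ η : ℝ, 0 < η → ∀ k₀ : ℕ, ∃ k ≥ k₀, ∃ (r : ℕ) (K : ℝ), ∀ (i : ι) (X : ℝ), 1 ≤ X →
          WithinRank ((D i).S k) A A' r (K * (D i).C ^ η * X ^ (1 / 2 + η)) X]) ∧
    -- primitive Dirichlet characters satisfy the hypotheses, and their coefficients are `d_k(n) χ(n)`
    (∀ (q : ℕ) [NeZero q] (χ : DirichletCharacter ℂ q), 1 < q → χ.IsPrimitive → (dirichlet χ).Ok ∧
      ∀ k n : ℕ, (dirichlet χ).coeff k n = (((ζ ^ k : ArithmeticFunction ℕ) n : ℕ) : ℂ) * χ (n : ZMod q)) ∧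
    (∀ (ι : Type) (q : ι → ℕ) [∀ i, NeZero (q i)] (χ : (i : ι) → DirichletCharacter ℂ (q i)),
      Molteni fun i => dirichlet (χ i)) := by
  refine ⟨fun ι m D A A' hm hA hA' hD hM => ⟨fun i k s hs => ?_, ?_⟩, fun q _ χ hq hχ => ⟨dir_ok hq hχ, fun k n => ?_⟩,
    fun ι q _ χ => dir_molteni q χ⟩
  · have h1 := Pool.Agent.H480.K.cf_series (D i).al (hD i).satake k (s := s) (by linarith)
    rw [← (hD i).euler s hs] at h1
    exact h1
  · exact (cfam hm hD hM).tfae hA hA'
  · exact Pool.Agent.H480.K.cf_dir χ k n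

end Pool.Agent.Results.MP_52e316_nt.LocalApproximateRank
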