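import Mathlib
import Pool.Agent.H201.Hz.Int

/-!
# Hurwitz zeta functions with parameters in a short interval decide the Lindelöf hypothesis for all
# Dirichlet L-functions

`ζ(s, α)` is the Hurwitz zeta function and `F(α, s) = ∑ e(nα) n^(-s)` the periodic zeta function
(Mathlib: `hurwitzZeta`, `expZeta`, with `α` taken modulo one).  `Exponent κ f` means
`f(1/2 + it) = O((1 + |t|)^(κ + ε))` for every `ε > 0`; for `κ = 0` this is the Lindelöf bound.

1. Let `(β, γ)` be any interval of positive length, `κ` any real number.  If for every rational `α` in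
   `(β, γ)` one of `ζ(s, α)`, `F(α, s)` has exponent `κ`, then ALL Dirichlet L-functions have exponent `κ`
   (and conversely).  So, if some `L(1/2 + it, χ)` is not `O(t^(κ + ε))`, the `α` for which neither
   `ζ(1/2 + it, α)` nor `F(α, 1/2 + it)` is `O(t^(κ + ε))` are dense.
2. Let `N ≥ 1` and let `S` be a set of residues modulo `N` such that `|S|` plus the number of units in `S`
   is at least `φ(N)`; let `N` be prime or `S` an arithmetic progression whose difference is prime to `N`
   (or contain such a progression of the same length).  If for each `a` in `S` one of `ζ(s, a/N)`,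
   `F(a/N, s)` has exponent `κ`, then so have `L(s, χ)` for all primitive `χ` of conductor dividing `N`
   (and conversely).  In particular ANY `φ(N)` consecutive residues suffice, any `(N - 1)/2` residues prime
   to `N` if `N` is prime, and the single function `ζ(s, 1/3)` decides `ζ(s)` and `L(s, χ_{-3})`.

Proof.  The functional equation on the critical line is an antilinear duality `Φ ↦ conj (FT Φ)` between
periodic functions.  The functions `x_a = N^(-s) ζ(s, a/N)` satisfy `p^s x_{pb} = ∑_{px = pb} x_x`; for
`s → -∞` these relations say that Fourier transforms are supported on the units, and an uncertainty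
principle (Vandermonde; Tao's theorem for prime `N`) shows that the linear system for the `x_a` has
a determinant `D(s)`, a Dirichlet polynomial, which is not identically zero.  So `D(s) x_a(s)` has exponent
`κ`, and one can divide by `D`: the three lines theorem extends the bound to a neighbourhood of the critical
line, `|D| ≥ c` on small circles around `1/2 + it` by almost periodicity, and the maximum principle applies.
-/

set_option autoImplicit false

open HurwitzZeta Finset

namespace Pool.Agent.Results.MP_52e316_nt.ShortIntervalsOfHurwitzZetas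

/-- `f(1/2 + it) = O((1 + |t|)^(κ + ε))` for every `ε > 0`. -/
def Exponent (κ : ℝ) (f : ℂ → ℂ) : Prop :=
  ∀ ε : ℝ, 0 < ε → ∃ C : ℝ, ∀ t : ℝ, ‖f (1 / 2 + t * Complex.I)‖ ≤ C * (1 + |t|) ^ (κ + ε)

/-- One of the functions `ζ(s, α)`, `F(α, s) = ∑ e(nα) n^(-s)` has exponent `κ`. -/
def AtPoint (κ : ℝ) (α : UnitAddCircle) : Prop :=
  Exponent κ (hurwitzZeta α) ∨ Exponent κ (expZeta α)

/-- `|S| + |S ∩ (ℤ/N)ˣ| ≥ φ(N)`, and `N` is prime or `S` contains an arithmetic progression of `|S|` terms
whose difference is prime to `N`. -/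
def Deciding {N : ℕ} [NeZero N] (S : Finset (ZMod N)) : Prop :=
  N.totient ≤ S.card + (S.filter IsUnit).card ∧
    (N.Prime ∨ ∃ b d : ZMod N, IsUnit d ∧ ∀ j : ℕ, j < S.card → b + j * d ∈ S)

theorem result :
    (∀ κ β γ : ℝ, β < γ →
      ((∀ α : ℚ, β < α → α < γ → AtPoint κ ((α : ℝ) : UnitAddCircle)) ↔
        ∀ (N : ℕ) [NeZero N] (χ : DirichletCharacter ℂ N), Exponent κ χ.LFunction)) ∧
    (∀ (N : ℕ) [NeZero N] (S : Finset (ZMod N)), Deciding S → ∀ κ : ℝ,
      ((∀ a ∈ S, AtPoint κ (ZMod.toAddCircle a)) ↔
        ∀ d : ℕ, d ∣ N → ∀ [NeZero d] (χ : DirichletCharacter ℂ d), χ.IsPrimitive →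
          Exponent κ χ.LFunction)) ∧
    (∀ (N m : ℕ) [NeZero N] (b : ℤ), N.totient ≤ m → m ≤ N →
      Deciding ((range m).image fun j : ℕ => ((b + j : ℤ) : ZMod N))) := by
  refine ⟨fun κ β γ h => Pool.Agent.H201.Hz.interval_iff h,
    fun N _ S hS κ => Pool.Agent.H201.Hz.level_iff hS,
    fun N m _ b h1 h2 => Pool.Agent.H201.Hz.block b h2 h1⟩

end Pool.Agent.Results.MP_52e316_nt.ShortIntervalsOfHurwitzZetas
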